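import Pool.Agent.helper73.AD.GW1
import Pool.Agent.helper99.AG.FB5

/-!
Module WC4 of the project ad: the shift of a crossing in terms of the positions of the flags.
-/

open scoped MatrixGroups LinearAlgebra.Projectivization BigOperators
open Matrix UpperHalfPlane
open Pool.Agent.helper73.AD (PS Word Arc sg Cone)

namespace AdSBend

noncomputable section

open LeafSystem

theorem WC4_cancel {a b d : SL(2, ℝ)} (h : PEq (a * d) (b * d)) : PEq a b := by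
  have h1 := CLK_mul h (CLK_refl d⁻¹)
  rwa [mul_inv_cancel_right, mul_inv_cancel_right] at h1

theorem WC4_inj {X : SL(2, ℝ)} {a b : ℝ} (h : PEq (X * Dm a) (X * Dm b)) : a = b := by
  have key : ∀ s t : ℝ, (Dm s = Dm t ∨ Dm s = -Dm t) → s = t := by
    intro s t hst
    rcases hst with e | e
    · have e1 : (Dm s).1 0 0 = (Dm t).1 0 0 := by rw [e]
      simp only [Dm, Matrix.of_apply, Matrix.cons_val', Matrix.cons_val_zero] at e1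
      have e2 := Real.exp_injective e1
      linarith
    · exfalso
      have e1 : (Dm s).1 0 0 = (-Dm t).1 0 0 := by rw [e]
      have e3 : (-Dm t).1 0 0 = -((Dm t).1 0 0) := by simp
      rw [e3] at e1
      simp only [Dm, Matrix.of_apply, Matrix.cons_val', Matrix.cons_val_zero] at e1
      have p1 := Real.exp_pos (s / 2)
      have p2 := Real.exp_pos (t / 2)
      linarith
  apply key
  rcases h with e | e
  · exact Or.inl (mul_left_cancel e)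
  · refine Or.inr ?_
    have e1 : X * Dm a = X * (-Dm b) := by rw [e, mul_neg]
    exact mul_left_cancel e1

/-- the frames along a fan -/
theorem WC4_fan (hW1 : WC1_stmt) (hA : FA0_stmt) (hF1 : FB1_stmt) {Γ : Subgroup SL(2, ℝ)}
    (hΓ : IsClosedSurfaceGroup Γ) {S : LeafSystem Γ} (hS : S.IsPants) {r : SL(2, ℝ) → SL(2, ℝ)}
    (hr : S.AdmS r) {τ : Tri} (hτ : S.IsHex τ) {F₀ : SL(2, ℝ)}
    (hF₀ : IsSeamFrame (r (gen Γ τ.1)) (r (gen Γ τ.2.1)) F₀) (m : ℤ) :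
    ∀ F, IsSeamFrame (r (gen Γ τ.1)) (r (gen Γ (fanT Γ τ m).2.1)) F →
      PEq F (F₀ * Dm (m * (len (r (gen Γ τ.1)) / 2))) := by
  obtain ⟨b1, b2, b3, b4, b5⟩ := hF1 Γ hΓ S r hr
  obtain ⟨a1, a2, a3, -, -, -, -, -, -, -⟩ := hA
  obtain ⟨w1, w2, -, -, -⟩ := hW1 Γ hΓ S hS τ hτ
  set L := len (r (gen Γ τ.1)) with hL
  have hex : ∀ m : ℤ, S.Hex τ.1 (fanT Γ τ m).2.1 (fanT Γ τ (m + 1)).2.1 := by
    intro m
    obtain ⟨h1, h2, -, h4⟩ := w1 m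
    rw [h4]
    have h5 : S.Hex (fanT Γ τ m).1 (fanT Γ τ m).2.1 (fanT Γ τ m).2.2 := h1
    rwa [h2] at h5
  induction m using Int.induction_on with
  | zero =>
    intro F hF
    rw [w2] at hF
    have e : F₀ * Dm (((0 : ℤ) : ℝ) * (L / 2)) = F₀ := by
      rw [Int.cast_zero, zero_mul, a2, mul_one]
    rw [e]
    exact b2 _ _ _ _ ⟨_, Or.inl hτ⟩ hF₀ hF
  | succ n ih =>
    intro F hF
    have hx := hex n
    obtain ⟨F', hF'⟩ := b1 τ.1 (fanT Γ τ n).2.1 ⟨_, Or.inl hx⟩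
    have h1 := ih F' hF'
    obtain ⟨-, -, h2⟩ := b4 _ _ _ F' hx hF'
    obtain ⟨g1, g2, -, g4⟩ := w1 n
    have g5 : S.Seam τ.1 (fanT Γ τ (n + 1)).2.1 := by
      obtain ⟨k1, k2, -, -⟩ := w1 (n + 1)
      have k3 : S.Hex (fanT Γ τ (n + 1)).1 (fanT Γ τ (n + 1)).2.1 (fanT Γ τ (n + 1)).2.2 := k1
      rw [k2] at k3
      exact ⟨_, Or.inl k3⟩
    have h3 := b2 _ _ _ _ g5 h2 hF
    have h4 := CLK_mul h1 (CLK_refl (Dm (L / 2)))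
    have e : F₀ * Dm (((n : ℤ) : ℝ) * (L / 2)) * Dm (L / 2) =
        F₀ * Dm ((((n : ℤ) + 1 : ℤ) : ℝ) * (L / 2)) := by
      rw [mul_assoc, a1]
      congr 2
      push_cast
      ring
    rw [e] at h4
    exact CLK_trans h3 h4
  | pred n ih =>
    intro F hF
    have hx := hex (-(n : ℤ) - 1)
    have e0 : -(n : ℤ) - 1 + 1 = -(n : ℤ) := by ring
    rw [e0] at hx
    obtain ⟨-, -, h2⟩ := b4 _ _ _ F hx hF
    have h3 := ih _ h2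
    have e : F₀ * Dm (((-(n : ℤ) : ℤ) : ℝ) * (L / 2)) =
        F₀ * Dm (((-(n : ℤ) - 1 : ℤ) : ℝ) * (L / 2)) * Dm (L / 2) := by
      rw [mul_assoc, a1]
      congr 2
      push_cast
      ring
    rw [e] at h3
    exact WC4_cancel h3

theorem WC4 (hW1 : WC1_stmt) (hR : WR2b_stmt) (hA : FA0_stmt) (hF1 : FB1_stmt)
    (hF4 : FB4_stmt) : WC4_stmt := by
  intro Γ J K c B i
  obtain ⟨r1, -, r3, r4, -, -⟩ := hR Γ c.hΓ c.X.S c.X.pants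
  obtain ⟨b1, b2, b3, b4, b5⟩ := hF1 Γ c.hΓ c.X.S c.ρ c.adm
  have hz := ((hF4 Γ c.hΓ c.X.S J c.X.D c.ρ c.adm).2.2.1 c.z c.coord).2
  -- the common part
  have main : ∀ (τ τ' : Tri) (t : ℝ), c.X.S.IsHex τ → c.X.S.IsHex τ' →
      τ.1 = c.W.A (i.val : ℤ) → τ'.1 = sw (c.W.A (i.val : ℤ)) →
      B.y (nxt Γ τ) = B.y τ → B.y τ' = B.y τ → B.y (nxt Γ τ') = B.y τ →
      (∃ F₀ G₀, IsSeamFrame (c.ρ (gen Γ τ.1)) (c.ρ (gen Γ τ.2.1)) F₀ ∧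
        IsSeamFrame (c.ρ (gen Γ τ'.1)) (c.ρ (gen Γ τ'.2.1)) G₀ ∧
        PEq F₀ (G₀ * Rm * Dm (c.z.2 (c.X.D.cls (c.W.A (i.val : ℤ)))))) →
      ∃ τ τ' : Tri, ∃ m m' : ℤ,
        c.X.S.IsHex τ ∧ c.X.S.IsHex τ' ∧ τ.1 = c.W.A (i.val : ℤ) ∧
        τ'.1 = sw (c.W.A (i.val : ℤ)) ∧
        B.y (nxt Γ τ) = B.y τ ∧ B.y τ' = B.y τ ∧ B.y (nxt Γ τ') = B.y τ ∧
        (fanT Γ τ m).2.1 = c.W.U (i.val : ℤ) ∧ (fanT Γ τ' m').2.1 = c.W.V (i.val : ℤ) ∧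
        c.w.c i = ((m : ℝ) + (m' : ℝ)) / 2 := by
    intro τ τ' t hτ hτ' e1 e1' y1 y2 y3 ⟨F₀, G₀, hF₀, hG₀, hFG⟩
    have hpL : c.W.A (i.val : ℤ) ∈ c.X.S.L := (c.W.mem _).1
    have sU : c.X.S.Seam τ.1 (c.W.U (i.val : ℤ)) := by rw [e1]; exact c.W.seamU _
    have sV : c.X.S.Seam τ'.1 (c.W.V (i.val : ℤ)) := by rw [e1']; exact c.W.seamV _
    obtain ⟨m, hm, -⟩ := (hW1 Γ c.hΓ c.X.S c.X.pants τ hτ).2.2.2.2 _ sU
    obtain ⟨m', hm', -⟩ := (hW1 Γ c.hΓ c.X.S c.X.pants τ' hτ').2.2.2.2 _ sV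
    refine ⟨τ, τ', m, m', hτ, hτ', e1, e1', y1, y2, y3, hm.symm, hm'.symm, ?_⟩
    obtain ⟨F, hF⟩ := b1 _ _ sU
    obtain ⟨G, hG⟩ := b1 _ _ sV
    have f1 := WC4_fan hW1 hA hF1 c.hΓ c.X.pants c.adm hτ hF₀ m F (by rw [← hm]; exact hF)
    have f2 := WC4_fan hW1 hA hF1 c.hΓ c.X.pants c.adm hτ' hG₀ m' G (by rw [← hm']; exact hG)
    have l1 : c.z.1 (c.X.D.cls (c.W.A (i.val : ℤ))) = len (c.ρ (gen Γ (c.W.A (i.val : ℤ)))) :=
      hz _ hpL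
    have l2 : len (c.ρ (gen Γ (sw (c.W.A (i.val : ℤ))))) =
        len (c.ρ (gen Γ (c.W.A (i.val : ℤ)))) := (b5 _ hpL).2.1
    have l3 := (b5 _ hpL).1
    rw [e1, ← l1] at f1
    rw [e1', l2, ← l1] at f2
    rw [e1] at hF
    rw [e1'] at hG
    rw [← l1] at l3
    have g1 := c.W.shift i c.ρ c.z c.adm c.coord F G hF hG
    have f1' : PEq F (1 * F₀ * Dm (m * (c.z.1 (c.X.D.cls (c.W.A (i.val : ℤ))) / 2))) := by
      rw [one_mul]; exact f1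
    have f2' : PEq G (1 * G₀ * Dm (m' * (c.z.1 (c.X.D.cls (c.W.A (i.val : ℤ))) / 2))) := by
      rw [one_mul]; exact f2
    have g2 := FB5_alg hA f1' f2' hFG
    have g3 := WC4_inj (CLK_trans (CLK_symm g1) g2)
    have ec : c.w.j i = c.X.D.cls (c.W.A (i.val : ℤ)) := c.W.cj i
    have g4 : c.w.t i c.z = c.z.2 (c.w.j i) + c.w.c i * c.z.1 (c.w.j i) := rfl
    change c.w.t i c.z = _ at g3
    rw [g4, ec] at g3
    have g5 : c.w.c i * c.z.1 (c.X.D.cls (c.W.A (i.val : ℤ))) =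
        ((m : ℝ) + (m' : ℝ)) / 2 * c.z.1 (c.X.D.cls (c.W.A (i.val : ℤ))) := by
      linarith
    exact mul_right_cancel₀ (ne_of_gt l3) g5
  set j := c.X.D.cls (c.W.A (i.val : ℤ)) with hj
  obtain ⟨γ, hγ, hcase⟩ := c.X.D.cls_inj (c.X.D.P j) (c.X.D.memP j) (c.W.A (i.val : ℤ))
    (c.W.mem _).1 (c.X.D.clsP j)
  have hU : c.X.S.IsHex (c.X.D.P j, c.X.D.U j, B.U' j) := B.hexU j
  have hV : c.X.S.IsHex (sw (c.X.D.P j), c.X.D.V j, B.V' j) := B.hexV j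
  have hnU := (r3 _ hU).2.2.1
  have hnV := (r3 _ hV).2.2.1
  obtain ⟨F₀, hF₀⟩ := b1 _ _ (c.X.D.seamU j)
  obtain ⟨G₀, hG₀⟩ := b1 _ _ (c.X.D.seamV j)
  have d3 := c.coord.2 j F₀ G₀ hF₀ hG₀
  have c1 := b3 γ hγ _ _ _ (c.X.D.seamU j) hF₀
  have c2 := b3 γ hγ _ _ _ (c.X.D.seamV j) hG₀
  have yU : B.y (gat γ (c.X.D.P j, c.X.D.U j, B.U' j)) =
      γ • B.y (c.X.D.P j, c.X.D.U j, B.U' j) := B.y_ga γ hγ _ hU
  have ynU : B.y (nxt Γ (gat γ (c.X.D.P j, c.X.D.U j, B.U' j))) =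
      γ • B.y (c.X.D.P j, c.X.D.U j, B.U' j) := by
    rw [(r4 γ hγ _ hU).2.2, B.y_ga γ hγ _ hnU]
    exact congrArg (fun z => γ • z) (B.y_one j)
  have yV : B.y (gat γ (sw (c.X.D.P j), c.X.D.V j, B.V' j)) =
      γ • B.y (c.X.D.P j, c.X.D.U j, B.U' j) := by
    rw [B.y_ga γ hγ _ hV, B.y_two j]
  have ynV : B.y (nxt Γ (gat γ (sw (c.X.D.P j), c.X.D.V j, B.V' j))) =
      γ • B.y (c.X.D.P j, c.X.D.U j, B.U' j) := by
    rw [(r4 γ hγ _ hV).2.2, B.y_ga γ hγ _ hnV]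
    exact congrArg (fun z => γ • z) (B.y_three j)
  have alg : PEq (c.ρ γ * F₀) (c.ρ γ * G₀ * Rm * Dm (c.z.2 j)) := by
    have := CLK_mul (CLK_refl (c.ρ γ)) d3
    rwa [← mul_assoc, ← mul_assoc] at this
  rcases hcase with hcase | hcase
  · refine main (gat γ (c.X.D.P j, c.X.D.U j, B.U' j))
      (gat γ (sw (c.X.D.P j), c.X.D.V j, B.V' j)) 0 (r1 γ hγ _ hU) (r1 γ hγ _ hV)
      hcase.symm ?_ (ynU.trans yU.symm) (yV.trans yU.symm) (ynV.trans yU.symm)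
      ⟨c.ρ γ * F₀, c.ρ γ * G₀, c1, c2, alg⟩
    rw [hcase]
    rfl
  · refine main (gat γ (sw (c.X.D.P j), c.X.D.V j, B.V' j))
      (gat γ (c.X.D.P j, c.X.D.U j, B.U' j)) 0 (r1 γ hγ _ hV) (r1 γ hγ _ hU)
      hcase.symm ?_ (ynV.trans yV.symm) (yU.trans yV.symm) (ynU.trans yV.symm)
      ⟨c.ρ γ * G₀, c.ρ γ * F₀, c2, c1, FB5_swap hA alg⟩
    rw [hcase]
    rfl

end

end AdSBend
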