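import Pool.Agent.helper73.AD.GW1

open scoped MatrixGroups LinearAlgebra.Projectivization BigOperators
open Matrix UpperHalfPlane
open Pool.Agent.helper73.AD (PS Word Arc sg Cone)

namespace AdSBend

noncomputable section

open LeafSystem Classical

lemma WC5_sum_le (m n : ℤ) (h : m ≤ n) :
    ∑ᶠ k : ℤ, ((if m ≤ k then (1 : ℝ) else 0) - (if n ≤ k then (1 : ℝ) else 0)) =
      (n : ℝ) - m := by
  have h1 : (Function.support fun k : ℤ =>
      ((if m ≤ k then (1 : ℝ) else 0) - (if n ≤ k then (1 : ℝ) else 0))) ⊆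
      ((Finset.Ico m n : Finset ℤ) : Set ℤ) := by
    intro k hk
    rw [Function.mem_support] at hk
    rw [Finset.coe_Ico, Set.mem_Ico]
    by_contra hcon
    apply hk
    by_cases h2 : m ≤ k
    · have h3 : n ≤ k := by
        by_contra h4
        exact hcon ⟨h2, not_le.mp h4⟩
      rw [if_pos h2, if_pos h3, sub_self]
    · have h3 : ¬ n ≤ k := fun h4 => h2 (le_trans h h4)
      rw [if_neg h2, if_neg h3, sub_self]
  rw [finsum_eq_sum_of_support_subset _ h1]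
  have h2 : ∀ k ∈ Finset.Ico m n,
      ((if m ≤ k then (1 : ℝ) else 0) - (if n ≤ k then (1 : ℝ) else 0)) = 1 := by
    intro k hk
    rw [Finset.mem_Ico] at hk
    rw [if_pos hk.1, if_neg (not_le.mpr hk.2), sub_zero]
  rw [Finset.sum_congr rfl h2, Finset.sum_const, Int.card_Ico, nsmul_eq_mul, mul_one]
  have h3 : (((n - m).toNat : ℤ) : ℝ) = ((n - m : ℤ) : ℝ) := by
    rw [Int.toNat_of_nonneg (by omega)]
  rw [Int.cast_natCast] at h3
  rw [h3]
  push_cast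
  ring

lemma WC5_sum (m n : ℤ) :
    ∑ᶠ k : ℤ, ((if m ≤ k then (1 : ℝ) else 0) - (if n ≤ k then (1 : ℝ) else 0)) =
      (n : ℝ) - m := by
  rcases le_total m n with h | h
  · exact WC5_sum_le m n h
  · have h1 := WC5_sum_le n m h
    have h2 : ∀ k : ℤ, ((if m ≤ k then (1 : ℝ) else 0) - (if n ≤ k then (1 : ℝ) else 0)) =
        -((if n ≤ k then (1 : ℝ) else 0) - (if m ≤ k then (1 : ℝ) else 0)) := by
      intro k; ring
    rw [finsum_congr h2, finsum_neg_distrib, h1]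
    ring

lemma WC5_fan (Γ : Subgroup SL(2, ℝ)) (τ : Tri) (S : LeafSystem Γ)
    (h1 : ∀ m, S.IsHex (fanT Γ τ m) ∧ (fanT Γ τ m).1 = τ.1)
    (h2 : ∀ τ', S.IsHex τ' → τ'.1 = τ.1 → ∃! m, τ' = fanT Γ τ m) (F : Tri → ℝ) :
    ∑ᶠ τ' ∈ {τ' : Tri | S.IsHex τ' ∧ τ'.1 = τ.1}, F τ' = ∑ᶠ k : ℤ, F (fanT Γ τ k) := by
  have hr : {τ' : Tri | S.IsHex τ' ∧ τ'.1 = τ.1} = Set.range (fanT Γ τ) := by
    ext τ'
    constructor
    · rintro ⟨ha, hb⟩
      obtain ⟨m, hm, -⟩ := h2 τ' ha hb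
      exact ⟨m, hm.symm⟩
    · rintro ⟨m, rfl⟩
      exact h1 m
  have hi : Function.Injective (fanT Γ τ) := by
    intro m m' hmm
    obtain ⟨k, hk, hu⟩ := h2 (fanT Γ τ m) (h1 m).1 (h1 m).2
    rw [hu m rfl, hu m' hmm]
  rw [hr, finsum_mem_range hi]

theorem WC5 (hBD4 : BD4_stmt) (hGM1 : GM1_stmt) (hWC1 : WC1_stmt) (hWC2 : WC2_stmt)
    (hWC3 : WC3_stmt) (hWC4 : WC4_stmt) : WC5_stmt := by
  intro Γ J K c B i
  obtain ⟨τ, τ', m, m', hx, hx', ht, ht', y1, y2, y3, hU, hV, hc⟩ := hWC4 Γ J K c B i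
  obtain ⟨f1, f2, f3, f4, -⟩ := hWC1 Γ c.hΓ c.X.S c.X.pants τ hx
  obtain ⟨g1, g2, g3, g4, -⟩ := hWC1 Γ c.hΓ c.X.S c.X.pants τ' hx'
  have hyon : side (B.y τ) (c.W.A (i.val : ℤ)).1 (c.W.A (i.val : ℤ)).2 = 0 := by
    have h := B.y_on τ hx
    rwa [ht] at h
  obtain ⟨k0, hk0⟩ := hWC3 Γ J K c (i.val : ℤ) (B.y τ) hyon
  have hA : c.W.A (i.val : ℤ) ∈ c.X.S.L := (c.W.mem (i.val : ℤ)).1
  have hgA : gen Γ (c.W.A (i.val : ℤ)) ∈ Γ :=
    (hGM1 Γ c.hΓ _ (c.X.S.closed _ hA)).1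
  have hA' : sw (c.W.A (i.val : ℤ)) ∈ c.X.S.L := c.X.S.swap _ hA
  have hgA' : gen Γ (sw (c.W.A (i.val : ℤ))) ∈ Γ :=
    (hGM1 Γ c.hΓ _ (c.X.S.closed _ hA')).1
  obtain ⟨B1, B2, B3, -, -, -⟩ := hBD4
  -- the fan on the outgoing side
  have hyf : ∀ k : ℤ, B.y (fanT Γ τ k) = (gen Γ (c.W.A (i.val : ℤ))) ^ (k / 2) • B.y τ := by
    intro k
    unfold fanT
    rw [ht]
    by_cases hk : k % 2 = 0
    · rw [if_pos hk, B.y_ga _ (Γ.zpow_mem hgA _) τ hx]
    · rw [if_neg hk]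
      have hn : c.X.S.IsHex (nxt Γ τ) := by
        have h0 := (f1 0).2.2.1
        rw [f2] at h0
        rw [← h0]
        exact (f1 (0 + 1)).1
      rw [B.y_ga _ (Γ.zpow_mem hgA _) _ hn, y1]
  have hyf' : ∀ k : ℤ, B.y (fanT Γ τ' k) =
      (gen Γ (sw (c.W.A (i.val : ℤ)))) ^ (k / 2) • B.y τ := by
    intro k
    unfold fanT
    rw [ht']
    by_cases hk : k % 2 = 0
    · rw [if_pos hk, B.y_ga _ (Γ.zpow_mem hgA' _) τ' hx', y2]
    · rw [if_neg hk]
      have hn : c.X.S.IsHex (nxt Γ τ') := by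
        have h0 := (g1 0).2.2.1
        rw [g2] at h0
        rw [← h0]
        exact (g1 (0 + 1)).1
      rw [B.y_ga _ (Γ.zpow_mem hgA' _) _ hn, y3]
  have hal : B.al (i.val : ℤ) = 2 * (k0 : ℝ) - m := by
    unfold WCtx.Base.al
    have hset : {σ : Tri | c.X.S.IsHex σ ∧ σ.1 = c.W.A (i.val : ℤ)} =
        {σ : Tri | c.X.S.IsHex σ ∧ σ.1 = τ.1} := by rw [ht]
    rw [hset, WC5_fan Γ τ c.X.S (fun k => ⟨(f1 k).1, (f1 k).2.1⟩) f3]
    have hterm : ∀ k : ℤ, chT c.l (fanT Γ τ k) - chi c.l (B.y (fanT Γ τ k)) =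
        ((if m ≤ k then (1 : ℝ) else 0) - (if 2 * k0 ≤ k then (1 : ℝ) else 0)) := by
      intro k
      have e1 : chT c.l (fanT Γ τ k) = if m ≤ k then (1 : ℝ) else 0 := by
        have h := (hWC2 Γ J K c (i.val : ℤ) (fanT Γ τ k) (f1 k).1).1
          ((f1 k).2.1.trans ht)
        rw [h]
        rw [← hU, ← ht]
        rcases lt_trichotomy m k with hmk | hmk | hmk
        · rw [if_pos (Or.inr (f4 m k hmk)), if_pos hmk.le]
        · rw [if_pos (Or.inl (by rw [hmk])), if_pos hmk.le]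
        · have h4 := f4 k m hmk
          rw [if_neg, if_neg (not_le.mpr hmk)]
          rintro (h5 | h5)
          · rw [h5] at h4
            exact (B1 _ _ _ h4).2.1 rfl
          · exact B3 _ _ _ h4 h5
      have e2 : chi c.l (B.y (fanT Γ τ k)) = if 2 * k0 ≤ k then (1 : ℝ) else 0 := by
        unfold chi
        rw [hyf k]
        by_cases h5 : 2 * k0 ≤ k
        · rw [if_pos h5, if_pos ((hk0 (k / 2)).1.mpr (by omega))]
        · rw [if_neg h5, if_neg (fun h6 => h5 (by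
            have := (hk0 (k / 2)).1.mp h6
            omega))]
      rw [e1, e2]
    rw [finsum_congr hterm, WC5_sum]
    push_cast
    ring
  have hbe : B.be (i.val : ℤ) = 2 - 2 * (k0 : ℝ) - m' := by
    unfold WCtx.Base.be
    have hset : {σ : Tri | c.X.S.IsHex σ ∧ σ.1 = sw (c.W.A (i.val : ℤ))} =
        {σ : Tri | c.X.S.IsHex σ ∧ σ.1 = τ'.1} := by rw [ht']
    rw [hset, WC5_fan Γ τ' c.X.S (fun k => ⟨(g1 k).1, (g1 k).2.1⟩) g3]
    have hterm : ∀ k : ℤ, chT c.l (fanT Γ τ' k) - chi c.l (B.y (fanT Γ τ' k)) =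
        ((if 2 - 2 * k0 ≤ k then (1 : ℝ) else 0) - (if m' ≤ k then (1 : ℝ) else 0)) := by
      intro k
      have e1 : chT c.l (fanT Γ τ' k) = 1 - if m' ≤ k then (1 : ℝ) else 0 := by
        have h := (hWC2 Γ J K c (i.val : ℤ) (fanT Γ τ' k) (g1 k).1).2
          ((g1 k).2.1.trans ht')
        rw [h]
        rw [← hV, ← ht']
        rcases lt_trichotomy m' k with hmk | hmk | hmk
        · have h4 := g4 m' k hmk
          rw [if_neg (fun h5 => B3 _ _ _ h4 h5), if_pos hmk.le]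
          ring
        · rw [hmk, if_neg (fun h5 => (B1 _ _ _ h5).2.1 rfl), if_pos le_rfl]
          ring
        · rw [if_pos (g4 k m' hmk), if_neg (not_le.mpr hmk)]
          ring
      have e2 : chi c.l (B.y (fanT Γ τ' k)) = 1 - if 2 - 2 * k0 ≤ k then (1 : ℝ) else 0 := by
        unfold chi
        rw [hyf' k]
        by_cases h5 : 2 - 2 * k0 ≤ k
        · rw [if_pos h5, if_neg (fun h6 => by
            have := (hk0 (k / 2)).2.mp h6
            omega)]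
          ring
        · rw [if_neg h5, if_pos ((hk0 (k / 2)).2.mpr (by omega))]
          ring
      rw [e1, e2]
      ring
    rw [finsum_congr hterm, WC5_sum]
    push_cast
    ring
  rw [hal, hbe, hc]
  ring

end

end AdSBend
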