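import Pool.Agent.helper73.AD.GW1

open scoped MatrixGroups LinearAlgebra.Projectivization BigOperators
open Matrix UpperHalfPlane
open Pool.Agent.helper73.AD (PS Word Arc sg Cone)

namespace AdSBend

noncomputable section

open LeafSystem Classical

lemma WE5_ip_neg (X Y : M2) : ip X (-Y) = -ip X Y := by
  unfold ip
  rw [Matrix.mul_neg, Matrix.trace_neg]
  ring

theorem WE5 (hBD4 : BD4_stmt) (hWA1 : WA1_stmt) (hWE3 : WE3_stmt) (hWE4 : WE4_stmt) :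
    WE5_stmt := by
  intro Γ J K c B x' i
  obtain ⟨s1, s2, s3⟩ := hWE3 Γ J K c B x' i
  obtain ⟨u1, -, -⟩ := hWE4 Γ J K c B (i.val : ℤ)
  obtain ⟨-, u2, -⟩ := hWE4 Γ J K c B ((i.val : ℤ) + 1)
  have hcop := c.W.copl (i.val : ℤ)
  have hne : c.W.A (i.val : ℤ) ≠ sw (c.W.A ((i.val : ℤ) + 1)) := by
    intro h
    have h1 := hcop.2.2.1.1
    rw [← h] at h1
    exact (hBD4.1 _ _ _ h1).2.2 rfl
  have hA1 : c.W.A ((i.val : ℤ) + 1) ∈ c.X.S.L := (c.W.mem _).1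
  have haw : c.a (sw (c.W.A ((i.val : ℤ) + 1))) = -c.a (c.W.A ((i.val : ℤ) + 1)) :=
    ((hWA1 Γ c.hΓ c.X.S c.ρ c.adm).1 _ hA1).2.2.1
  have hcl : c.cls (sw (c.W.A ((i.val : ℤ) + 1))) = c.cls (c.W.A ((i.val : ℤ) + 1)) :=
    c.X.D.cls_sw _ hA1
  -- the long side terms
  set L : Tri → ℝ := fun τ => (x' (c.cls τ.1) / 2) * (chT c.l τ - chi c.l (B.y τ)) *
    ip (c.a c.l) (c.a τ.1) with hL
  set M : Tri → ℝ := fun τ => (1 / 2) * ds Γ c.ρ (fun p => x' (c.cls p)) τ.1 τ.2.2 τ.2.1 *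
    (chT c.l τ - chT c.l (mir Γ τ)) * ip (c.a c.l) (c.s τ.1 τ.2.2) with hM
  set P : Set Tri := {τ : Tri | c.InPl (i.val : ℤ) τ} with hP
  set P1 : Set Tri := {τ : Tri | c.X.S.IsHex τ ∧ τ.1 = c.W.A (i.val : ℤ)} with hP1
  set P2 : Set Tri := {τ : Tri | c.X.S.IsHex τ ∧ τ.1 = sw (c.W.A ((i.val : ℤ) + 1))} with hP2
  set P3 : Set Tri := {τ : Tri | c.InPl (i.val : ℤ) τ ∧ τ.1 ≠ c.W.A (i.val : ℤ) ∧
    τ.1 ≠ sw (c.W.A ((i.val : ℤ) + 1))} with hP3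
  have hPsi : ∀ τ, B.Psi x' τ c.l = L τ + M τ := fun τ => rfl
  have hsup : ∀ τ, L τ ≠ 0 → chT c.l τ ≠ chi c.l (B.y τ) := by
    intro τ h h1
    apply h
    rw [hL]
    simp only [h1, sub_self, mul_zero, zero_mul]
  have hf1 : (P1 ∩ Function.support L).Finite := by
    refine u1.subset ?_
    rintro τ ⟨⟨h1, h2⟩, h3⟩
    exact ⟨h1, h2, hsup τ h3⟩
  have hf2 : (P2 ∩ Function.support L).Finite := by
    refine u2.subset ?_
    rintro τ ⟨⟨h1, h2⟩, h3⟩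
    exact ⟨h1, h2, hsup τ h3⟩
  have hf3 : (P3 ∩ Function.support L).Finite := by
    refine s2.subset ?_
    rintro τ ⟨⟨h1, h2, h2'⟩, h3⟩
    exact ⟨h1, h2, h2', hsup τ h3⟩
  have hfM : (P ∩ Function.support M).Finite := by
    refine s1.subset ?_
    rintro τ ⟨h1, h3⟩
    refine ⟨h1, ?_⟩
    intro h4
    apply h3
    rw [hM]
    simp only [h4, sub_self, mul_zero, zero_mul]
  have hPu : P = (P1 ∪ P2) ∪ P3 := by
    ext τ
    constructor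
    · intro h
      by_cases h1 : τ.1 = c.W.A (i.val : ℤ)
      · exact Or.inl (Or.inl ⟨h.1, h1⟩)
      · by_cases h2 : τ.1 = sw (c.W.A ((i.val : ℤ) + 1))
        · exact Or.inl (Or.inr ⟨h.1, h2⟩)
        · exact Or.inr ⟨h, h1, h2⟩
    · rintro ((⟨h1, h2⟩ | ⟨h1, h2⟩) | h)
      · exact ⟨h1, Or.inl h2⟩
      · refine ⟨h1, Or.inr ?_⟩
        rw [h2]
        exact hcop
      · exact h.1
  have hd1 : Disjoint P1 P2 := by
    rw [Set.disjoint_left]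
    rintro τ ⟨-, h1⟩ ⟨-, h2⟩
    exact hne (h1.symm.trans h2)
  have hd2 : Disjoint (P1 ∪ P2) P3 := by
    rw [Set.disjoint_left]
    rintro τ (⟨-, h1⟩ | ⟨-, h1⟩) ⟨-, h2, h3⟩
    · exact h2 h1
    · exact h3 h1
  have hf12 : ((P1 ∪ P2) ∩ Function.support L).Finite := by
    rw [Set.union_inter_distrib_right]
    exact hf1.union hf2
  have hfL : (P ∩ Function.support L).Finite := by
    rw [hPu, Set.union_inter_distrib_right]
    exact hf12.union hf3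
  have e0 : ∑ᶠ τ ∈ P, B.Psi x' τ c.l = ∑ᶠ τ ∈ P, L τ + ∑ᶠ τ ∈ P, M τ := by
    rw [← finsum_mem_add_distrib' hfL hfM]
    rfl
  have e1 : ∑ᶠ τ ∈ P, L τ = ∑ᶠ τ ∈ P1, L τ + ∑ᶠ τ ∈ P2, L τ + ∑ᶠ τ ∈ P3, L τ := by
    rw [hPu, finsum_mem_union' hd2 hf12 hf3, finsum_mem_union' hd1 hf1 hf2]
  have e2 : ∑ᶠ τ ∈ P1, L τ = B.al (i.val : ℤ) * (x' (c.cls (c.W.A (i.val : ℤ))) / 2) *
      ip (c.a c.l) (c.a (c.W.A (i.val : ℤ))) := by
    have h1 : ∀ τ ∈ P1, L τ = (chT c.l τ - chi c.l (B.y τ)) *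
        ((x' (c.cls (c.W.A (i.val : ℤ))) / 2) *
          ip (c.a c.l) (c.a (c.W.A (i.val : ℤ)))) := by
      rintro τ ⟨-, h⟩
      rw [hL]
      simp only [h]
      ring
    rw [finsum_mem_congr rfl h1, ← finsum_mem_mul, mul_assoc]
    rfl
  have e3 : ∑ᶠ τ ∈ P2, L τ = B.be ((i.val : ℤ) + 1) *
      (x' (c.cls (c.W.A ((i.val : ℤ) + 1))) / 2) *
        ip (c.a c.l) (c.a (c.W.A ((i.val : ℤ) + 1))) := by
    have h1 : ∀ τ ∈ P2, L τ = (chT c.l τ - chi c.l (B.y τ)) *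
        (-((x' (c.cls (c.W.A ((i.val : ℤ) + 1))) / 2) *
          ip (c.a c.l) (c.a (c.W.A ((i.val : ℤ) + 1))))) := by
      rintro τ ⟨-, h⟩
      rw [hL]
      simp only [h, haw, hcl, WE5_ip_neg]
      ring
    rw [finsum_mem_congr rfl h1, ← finsum_mem_mul]
    unfold WCtx.Base.be
    ring
  rw [e0, e1, e2, e3, ← s3]
  ring

end

end AdSBend
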